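import Pool.Agent.Q26.CoxB

set_option autoImplicit false
set_option linter.unnecessarySeqFocus false

namespace Pool.Agent.Results.MP_de6c1e_al.StrictInclusion

open Filter Topology LinearAlgebra.Projectivization Pool.Agent.Q26.CoxLim Pool.Agent.Q26.CoxB

/-! ### Definitions of the problem -/

section Defs

variable {ι : Type} [Fintype ι] [DecidableEq ι]

/-- The limits of the injective sequences of points of the orbit of `p₀`. -/
def LimFrom (D : GeomCoxeter ι) (p₀ : ℙ ℝ (ι → ℝ)) : Set (ℙ ℝ (ι → ℝ)) :=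
  {p | ∃ f : ℕ → ℙ ℝ (ι → ℝ), (∀ n, f n ∈ D.orbit p₀) ∧ Function.Injective f ∧
    Tendsto f atTop (𝓝 p)}

/-- The set `E_V` of limit directions. -/
def limitDirections (D : GeomCoxeter ι) : Set (ℙ ℝ (ι → ℝ)) := ⋃ p₀, LimFrom D p₀

/-- The set `E_Φ` of limit roots. -/
def limitRoots (D : GeomCoxeter ι) : Set (ℙ ℝ (ι → ℝ)) :=
  ⋃ s, LimFrom D (Projectivization.mk ℝ (al s) (al_ne_zero s))

/-- The union of the projectivised unimodular subspaces: the directions of the vectors orthogonal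
to an eigenvector `x` with eigenvalue of modulus `> 1` and to an eigenvector `y` with eigenvalue of
modulus `< 1` of one element of the group. -/
def unimodHyp (D : GeomCoxeter ι) : Set (ℙ ℝ (ι → ℝ)) :=
  {p | ∃ w ∈ D.W, ∃ (x y : ι → ℝ) (a b : ℝ), x ≠ 0 ∧ y ≠ 0 ∧ w x = a • x ∧ w y = b • y ∧
    1 < |a| ∧ |b| < 1 ∧ D.form p.rep x = 0 ∧ D.form p.rep y = 0}

end Defs

/-! ### Coding of light-like directions -/

/-- Products of reflections along a word. -/
noncomputable def pre (i : ℕ → Fin 3) : ℕ → ((Fin 3 → ℝ) ≃ₗ[ℝ] (Fin 3 → ℝ))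
  | 0 => 1
  | k + 1 => U3.refl (i k) * pre i k

lemma refl_mem (s : Fin 3) : U3.refl s ∈ U3.W := Subgroup.subset_closure ⟨s, rfl⟩

lemma pre_mem (i : ℕ → Fin 3) (k : ℕ) : pre i k ∈ U3.W := by
  induction k with
  | zero => exact U3.W.one_mem
  | succ k ih => exact U3.W.mul_mem (refl_mem _) ih

lemma pre_succ (i : ℕ → Fin 3) (k : ℕ) (v : Fin 3 → ℝ) :
    pre i (k + 1) v = U3.refl (i k) (pre i k v) := rfl

lemma refl_refl (s : Fin 3) (v : Fin 3 → ℝ) : U3.refl s (U3.refl s v) = v :=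
  U3.reflLin_invol s v

lemma pre_back (i : ℕ → Fin 3) (k : ℕ) (v : Fin 3 → ℝ) :
    pre i k v = U3.refl (i k) (pre i (k + 1) v) := by
  rw [pre_succ, refl_refl]

lemma pre_congr {i j : ℕ → Fin 3} {k : ℕ} (h : ∀ m, m < k → i m = j m) : pre i k = pre j k := by
  induction k with
  | zero => rfl
  | succ k ih =>
      show U3.refl (i k) * pre i k = U3.refl (j k) * pre j k
      rw [ih (fun m hm => h m (by omega)), h k (by omega)]

lemma pre_shift (i : ℕ → Fin 3) (k m : ℕ) (v : Fin 3 → ℝ) :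
    pre (fun n => i (n + k)) m (pre i k v) = pre i (m + k) v := by
  induction m with
  | zero =>
      rw [Nat.zero_add]
      rfl
  | succ m ih =>
      rw [pre_succ, ih]
      have : m + 1 + k = (m + k) + 1 := by ring
      rw [this, pre_succ]

/-- The finite coding condition. -/
def FC (i : ℕ → Fin 3) (k : ℕ) (v : Fin 3 → ℝ) : Prop := ∀ m, m ≤ k → pre i m v ∈ Pc (i m)

/-- The vector `v` is coded by the infinite word `i`. -/
def Cod (i : ℕ → Fin 3) (v : Fin 3 → ℝ) : Prop := v ≠ 0 ∧ ∀ k, pre i k v ∈ Pc (i k)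

/-- Words without repetitions. -/
def Red (i : ℕ → Fin 3) : Prop := ∀ n, i n ≠ i (n + 1)

lemma growth {i : ℕ → Fin 3} (hi : Red i) {k : ℕ} {v : Fin 3 → ℝ} (h : FC i k v) :
    2 ^ k * (pre i k v) (i k) ≤ v (i 0) := by
  induction k with
  | zero =>
      rw [pow_zero, one_mul]
      exact le_rfl
  | succ k ih =>
      have h1 := ih (fun m hm => h m (by omega))
      have h2 := (Pc_step (hi k) (h (k + 1) le_rfl)).2
      rw [← pre_back] at h2
      refine le_trans ?_ h1
      rw [pow_succ, mul_assoc]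
      gcongr

lemma Pc_form {i : Fin 3} {u u' : Fin 3 → ℝ} (h : u ∈ Pc i) (h' : u' ∈ Pc i) :
    |U3.form u u'| ≤ 3 / 2 * sg u * sg u' := by
  have a0 := h.1 0
  have a1 := h.1 1
  have a2 := h.1 2
  have b0 := h'.1 0
  have b1 := h'.1 1
  have b2 := h'.1 2
  rw [U3_form]
  unfold sg
  have m00 := mul_nonneg a0 b0
  have m01 := mul_nonneg a0 b1
  have m02 := mul_nonneg a0 b2
  have m10 := mul_nonneg a1 b0
  have m11 := mul_nonneg a1 b1
  have m12 := mul_nonneg a1 b2
  have m20 := mul_nonneg a2 b0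
  have m21 := mul_nonneg a2 b1
  have m22 := mul_nonneg a2 b2
  rw [abs_le]
  constructor <;> nlinarith

lemma FC_sg {i : ℕ → Fin 3} (hi : Red i) {k : ℕ} {v : Fin 3 → ℝ} (h : FC i k v) :
    0 ≤ sg (pre i k v) ∧ 2 ^ k * sg (pre i k v) ≤ 2 * sg v := by
  have h1 := growth hi h
  have h2 := Pc_sg (h k le_rfl)
  have h3 : v ∈ Pc (i 0) := h 0 (by omega)
  have h4 := Pc_sg h3
  have h5 : 0 ≤ (pre i k v) (i k) := (h k le_rfl).1 _
  have h6 : (0 : ℝ) < 2 ^ k := by positivity
  constructor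
  · linarith [h2.1]
  · nlinarith [h2.2, h4.1]

/-- Vectors with a long common code are almost orthogonal. -/
lemma FC_form {i : ℕ → Fin 3} (hi : Red i) {k : ℕ} {v v' : Fin 3 → ℝ} (h : FC i k v)
    (h' : FC i k v') : 4 ^ k * |U3.form v v'| ≤ 6 * sg v * sg v' := by
  have h1 := Pc_form (h k le_rfl) (h' k le_rfl)
  rw [U3.form_W (pre_mem i k)] at h1
  obtain ⟨h2, h3⟩ := FC_sg hi h
  obtain ⟨h4, h5⟩ := FC_sg hi h'
  have h6 : (4 : ℝ) ^ k = 2 ^ k * 2 ^ k := by
    rw [← mul_pow]
    norm_num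
  have h7 : (0 : ℝ) < 2 ^ k := by positivity
  have h8 : (2 ^ k * sg (pre i k v)) * (2 ^ k * sg (pre i k v')) ≤ (2 * sg v) * (2 * sg v') := by
    apply mul_le_mul h3 h5 (by positivity)
    exact le_trans (by positivity) h3
  rw [h6]
  calc 2 ^ k * 2 ^ k * |U3.form v v'| ≤
      2 ^ k * 2 ^ k * (3 / 2 * sg (pre i k v) * sg (pre i k v')) := by gcongr
    _ = 3 / 2 * ((2 ^ k * sg (pre i k v)) * (2 ^ k * sg (pre i k v'))) := by ring
    _ ≤ 3 / 2 * ((2 * sg v) * (2 * sg v')) := by gcongr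
    _ = 6 * sg v * sg v' := by ring

lemma sg_pos_of_Pc {i : Fin 3} {v : Fin 3 → ℝ} (hv : v ∈ Pc i) (h0 : v ≠ 0) : 0 < sg v := by
  have a0 := hv.1 0
  have a1 := hv.1 1
  have a2 := hv.1 2
  rcases lt_or_eq_of_le (show 0 ≤ sg v by unfold sg; positivity) with h | h
  · exact h
  · exfalso
    apply h0
    unfold sg at h
    ext j
    show v j = 0
    fin_cases j
    · show v 0 = 0
      linarith
    · show v 1 = 0
      linarith
    · show v 2 = 0
      linarith

lemma cod_sg_pos {i : ℕ → Fin 3} {v : Fin 3 → ℝ} (h : Cod i v) : 0 < sg v :=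
  sg_pos_of_Pc (h.2 0) h.1

/-- Coded vectors are light-like. -/
lemma cod_light {i : ℕ → Fin 3} (hi : Red i) {v : Fin 3 → ℝ} (h : Cod i v) : U3.form v v = 0 := by
  have h1 : ∀ k : ℕ, |U3.form v v| ≤ 6 * sg v * sg v * (1 / 4) ^ k := by
    intro k
    have h2 := FC_form hi (k := k) (fun m _ => h.2 m) (fun m _ => h.2 m)
    have h3 : (0 : ℝ) < 4 ^ k := by positivity
    rw [one_div, inv_pow, ← div_eq_mul_inv, le_div_iff₀ h3]
    linarith
  have h2 : Tendsto (fun k : ℕ => 6 * sg v * sg v * (1 / 4 : ℝ) ^ k) atTop (𝓝 0) := by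
    have := (tendsto_pow_atTop_nhds_zero_of_lt_one (r := (1 / 4 : ℝ)) (by norm_num)
      (by norm_num)).const_mul (6 * sg v * sg v)
    rwa [mul_zero] at this
  have h3 := ge_of_tendsto h2 (Eventually.of_forall h1)
  exact abs_nonpos_iff.1 h3

/-- Vectors with a long common code have close directions. -/
lemma cod_close {i j : ℕ → Fin 3} (hi : Red i) (hj : Red j) {v v' : Fin 3 → ℝ} (h : Cod i v)
    (h' : Cod j v') {k : ℕ} (hij : ∀ m, m ≤ k → i m = j m) :
    (v 0 / sg v - v' 0 / sg v') ^ 2 + (v 1 / sg v - v' 1 / sg v') ^ 2 +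
      (v 2 / sg v - v' 2 / sg v') ^ 2 ≤ 5 * (1 / 4) ^ k := by
  have p := cod_sg_pos h
  have p' := cod_sg_pos h'
  rw [dirs v v' p.ne' p'.ne', cod_light hi h, cod_light hj h', zero_div, zero_div]
  have h1 : FC i k v' := by
    intro m hm
    have := h'.2 m
    rwa [← pre_congr (fun l hl => hij l (by omega)), ← hij m hm] at this
  have h2 := FC_form hi (fun m (_ : m ≤ k) => h.2 m) h1
  have h3 : (0 : ℝ) < 4 ^ k := by positivity
  have h4 : |U3.form v v' / (sg v * sg v')| ≤ 6 * (1 / 4) ^ k := by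
    rw [abs_div, abs_of_pos (mul_pos p p'), one_div, inv_pow, ← div_eq_mul_inv,
      div_le_div_iff₀ (mul_pos p p') h3]
    linarith
  have h5 : 2 * U3.form v v' / (sg v * sg v') = 2 * (U3.form v v' / (sg v * sg v')) := by ring
  rw [h5]
  have h6 := neg_abs_le (U3.form v v' / (sg v * sg v'))
  have h7 : (0 : ℝ) ≤ (1 / 4) ^ k := by positivity
  linarith

/-- Existence of coded vectors. -/
lemma cod_exists {i : ℕ → Fin 3} (hi : Red i) : ∃ v, Cod i v := by
  let K : ℕ → Set (Fin 3 → ℝ) := fun k => {v | sg v = 1 ∧ FC i k v}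
  have hcont : Continuous sg := by
    unfold sg
    fun_prop
  have hPc : ∀ s, IsClosed (Pc s) := by
    intro s
    have h1 : Pc s = (⋂ j, {v : Fin 3 → ℝ | 0 ≤ v j}) ∩
        ⋂ j, ⋂ (_ : j ≠ s), {v : Fin 3 → ℝ | 2 * v j ≤ v s} := by
      ext v
      simp [Pc]
    rw [h1]
    apply IsClosed.inter
    · exact isClosed_iInter (fun j => isClosed_le continuous_const (continuous_apply j))
    · refine isClosed_iInter (fun j => isClosed_iInter (fun _ => ?_))
      exact isClosed_le (continuous_const.mul (continuous_apply j)) (continuous_apply s)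
  have hclosed : ∀ k, IsClosed (K k) := by
    intro k
    have h1 : K k = {v | sg v = 1} ∩ ⋂ m, ⋂ (_ : m ≤ k), (pre i m) ⁻¹' (Pc (i m)) := by
      ext v
      simp [K, FC]
    rw [h1]
    apply IsClosed.inter
    · exact isClosed_eq hcont continuous_const
    · refine isClosed_iInter (fun m => isClosed_iInter (fun _ => ?_))
      exact (hPc _).preimage (pre i m).toLinearMap.continuous_of_finiteDimensional
  have hcompact : IsCompact (K 0) := by
    have hsub : K 0 ⊆ Set.Icc (0 : Fin 3 → ℝ) 1 := by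
      rintro v ⟨h1, h2⟩
      have h3 : v ∈ Pc (i 0) := h2 0 le_rfl
      have a0 := h3.1 0
      have a1 := h3.1 1
      have a2 := h3.1 2
      unfold sg at h1
      refine ⟨fun j => h3.1 j, fun j => ?_⟩
      show v j ≤ 1
      fin_cases j
      · show v 0 ≤ 1
        linarith
      · show v 1 ≤ 1
        linarith
      · show v 2 ≤ 1
        linarith
    exact isCompact_Icc.of_isClosed_subset (hclosed 0) hsub
  have hmono : ∀ k, K (k + 1) ⊆ K k := by
    rintro k v ⟨h1, h2⟩
    exact ⟨h1, fun m hm => h2 m (by omega)⟩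
  have hne : ∀ k, (K k).Nonempty := by
    intro k
    have hal : al (i k) ∈ Pc (i k) := by
      unfold al
      refine ⟨fun j => ?_, fun j hj => ?_⟩
      · by_cases h : j = i k
        · subst h
          simp
        · simp [h]
      · simp [hj]
    let u : Fin 3 → ℝ := (pre i k).symm (al (i k))
    have hu : ∀ d m, m + d = k → pre i m u ∈ Pc (i m) := by
      intro d
      induction d with
      | zero =>
          intro m hm
          have : m = k := by omega
          subst this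
          show pre i m ((pre i m).symm (al (i m))) ∈ _
          rw [LinearEquiv.apply_symm_apply]
          exact hal
      | succ d ih =>
          intro m hm
          have h1 := ih (m + 1) (by omega)
          rw [pre_back]
          exact (Pc_step (hi m) h1).1
    have hFC : FC i k u := fun m hm => hu (k - m) m (by omega)
    have hu0 : u ≠ 0 := by
      intro h
      have : al (i k) = 0 := by
        have h2 : pre i k u = al (i k) := LinearEquiv.apply_symm_apply _ _
        rw [← h2, h, map_zero]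
      exact al_ne_zero _ this
    have hpos : 0 < sg u := sg_pos_of_Pc (hFC 0 (by omega)) hu0
    refine ⟨(sg u)⁻¹ • u, ?_, ?_⟩
    · rw [sg_smul]
      exact inv_mul_cancel₀ hpos.ne'
    · intro m hm
      rw [map_smul]
      have h3 := hFC m hm
      refine ⟨fun j => ?_, fun j hj => ?_⟩
      · exact mul_nonneg (inv_nonneg.2 hpos.le) (h3.1 j)
      · have h4 := h3.2 j hj
        show 2 * ((sg u)⁻¹ * (pre i m u) j) ≤ (sg u)⁻¹ * (pre i m u) (i m)
        have h5 : 0 ≤ (sg u)⁻¹ := inv_nonneg.2 hpos.le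
        nlinarith
  obtain ⟨v, hv⟩ := IsCompact.nonempty_iInter_of_sequence_nonempty_isCompact_isClosed K hmono hne
    hcompact hclosed
  rw [Set.mem_iInter] at hv
  refine ⟨v, ?_, fun k => (hv k).2 k le_rfl⟩
  rintro rfl
  have := (hv 0).1
  simp [sg] at this

/-- A vector determines its code. -/
lemma cod_unique {i j : ℕ → Fin 3} {v : Fin 3 → ℝ} (h : Cod i v) (h' : Cod j v) (n : ℕ) :
    i n = j n := by
  induction n using Nat.strong_induction_on with
  | _ n ih =>
      have h1 := h.2 n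
      have h2 := h'.2 n
      rw [← pre_congr (fun m hm => ih m hm)] at h2
      by_contra hne
      have h3 := Pc_disjoint hne h1 h2
      exact h.1 ((pre i n).injective (h3.trans (map_zero _).symm))

lemma cod_smul {i : ℕ → Fin 3} {v : Fin 3 → ℝ} (h : Cod i v) {c : ℝ} {j : ℕ → Fin 3}
    (h' : Cod j (c • v)) : Cod i (c • v) := by
  have hc0 : 0 < c := by
    have h1 := cod_sg_pos h
    have h2 := cod_sg_pos h'
    rw [sg_smul] at h2
    by_contra hcon
    push Not at hcon
    nlinarith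
  refine ⟨h'.1, fun k => ?_⟩
  rw [map_smul]
  have h3 := h.2 k
  refine ⟨fun l => mul_nonneg hc0.le (h3.1 l), fun l hl => ?_⟩
  have h4 := h3.2 l hl
  show 2 * (c * (pre i k v) l) ≤ c * (pre i k v) (i k)
  nlinarith

lemma cod_shift {i : ℕ → Fin 3} {v : Fin 3 → ℝ} (h : Cod i v) (k : ℕ) :
    Cod (fun n => i (n + k)) (pre i k v) := by
  refine ⟨fun h0 => h.1 ((pre i k).injective (h0.trans (map_zero _).symm)), fun m => ?_⟩
  rw [pre_shift]
  exact h.2 (m + k)

/-- Prepending a letter. -/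
def prep (a : Fin 3) (w : ℕ → Fin 3) : ℕ → Fin 3
  | 0 => a
  | n + 1 => w n

lemma pre_prep (a : Fin 3) (w : ℕ → Fin 3) (k : ℕ) (v : Fin 3 → ℝ) :
    pre (prep a w) (k + 1) (U3.refl a v) = pre w k v := by
  induction k with
  | zero =>
      show U3.refl a (U3.refl a v) = v
      exact refl_refl a v
  | succ k ih =>
      rw [pre_succ, ih]
      rfl

lemma cod_prep {a : Fin 3} {w : ℕ → Fin 3} {v : Fin 3 → ℝ} (h : Cod w v) (ha : a ≠ w 0) :
    Cod (prep a w) (U3.refl a v) := by
  refine ⟨fun h0 => h.1 ((U3.refl a).injective (h0.trans (map_zero _).symm)), fun k => ?_⟩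
  cases k with
  | zero => exact (Pc_step ha (h.2 0)).1
  | succ k =>
      rw [pre_prep]
      exact h.2 k

lemma red_prep {a : Fin 3} {w : ℕ → Fin 3} (h : Red w) (ha : a ≠ w 0) : Red (prep a w) := by
  intro n
  cases n with
  | zero => exact ha
  | succ n => exact h n

/-! ### The words -/

/-- The word `0 1 0 1 ...`. -/
def Vw : ℕ → Fin 3 := fun n => if n % 2 = 0 then 0 else 1

/-- The word `1 2 1 2 ...`. -/
def Uw : ℕ → Fin 3 := fun n => if n % 2 = 0 then 1 else 2

open Classical in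
/-- The word made of the blocks `(1 0) ^ m (1 2) ^ m`. -/
noncomputable def Iw : ℕ → Fin 3 := fun n =>
  if n % 2 = 0 then 1
  else if ∃ m, 2 * m ^ 2 ≤ n ∧ n < 2 * m ^ 2 + 2 * m then 2 else 0

lemma red_Vw : Red Vw := by
  intro n
  unfold Vw
  rcases Nat.mod_two_eq_zero_or_one n with h | h
  · rw [if_pos h, if_neg (by omega)]
    decide
  · rw [if_neg (by omega), if_pos (by omega)]
    decide

lemma red_Uw : Red Uw := by
  intro n
  unfold Uw
  rcases Nat.mod_two_eq_zero_or_one n with h | h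
  · rw [if_pos h, if_neg (by omega)]
    decide
  · rw [if_neg (by omega), if_pos (by omega)]
    decide

lemma Iw_even {n : ℕ} (h : n % 2 = 0) : Iw n = 1 := by
  unfold Iw
  rw [if_pos h]

lemma Iw_odd {n : ℕ} (h : n % 2 = 1) : Iw n ≠ 1 := by
  unfold Iw
  rw [if_neg (by omega)]
  split_ifs <;> decide

lemma Iw_two {n : ℕ} (h : n % 2 = 1) (h' : ∃ m, 2 * m ^ 2 ≤ n ∧ n < 2 * m ^ 2 + 2 * m) :
    Iw n = 2 := by
  unfold Iw
  rw [if_neg (by omega), if_pos h']

lemma red_Iw : Red Iw := by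
  intro n
  rcases Nat.mod_two_eq_zero_or_one n with h | h
  · rw [Iw_even h]
    exact (Iw_odd (by omega)).symm
  · rw [Iw_even (n := n + 1) (by omega)]
    exact Iw_odd h

lemma Iw_forward (m t : ℕ) (ht : t < 2 * m) : Iw (t + 2 * m ^ 2) = Uw t := by
  unfold Uw
  rcases Nat.mod_two_eq_zero_or_one t with h | h
  · rw [if_pos h, Iw_even (by omega)]
  · rw [if_neg (by omega), Iw_two (by omega)]
    exact ⟨m, by omega, by omega⟩

lemma Iw_low (m n : ℕ) (h1 : 2 * m ^ 2 ≤ n + 2 * m) (h2 : n < 2 * m ^ 2) (h3 : n % 2 = 1) :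
    Iw n = 0 := by
  unfold Iw
  rw [if_neg (by omega), if_neg]
  rintro ⟨l, h4, h5⟩
  rcases Nat.lt_or_ge l m with h | h
  · obtain ⟨d, rfl⟩ : ∃ d, m = l + 1 + d := ⟨m - l - 1, by omega⟩
    nlinarith
  · have : m ^ 2 ≤ l ^ 2 := Nat.pow_le_pow_left h 2
    omega

lemma Iw_backward (m t : ℕ) (ht : t < 2 * m) : Iw (2 * m ^ 2 - 1 - t) = Vw t := by
  have hm : 2 * m ≤ 2 * m ^ 2 := by nlinarith
  unfold Vw
  rcases Nat.mod_two_eq_zero_or_one t with h | h
  · rw [if_pos h]
    exact Iw_low m _ (by omega) (by omega) (by omega)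
  · rw [if_neg (by omega)]
    unfold Iw
    rw [if_pos (by omega)]

/-- The backward words. -/
noncomputable def Rw : ℕ → (ℕ → Fin 3)
  | 0 => Vw
  | k + 1 => prep (Iw k) (Rw k)

lemma Rw_zero (k : ℕ) : Iw k ≠ Rw k 0 := by
  cases k with
  | zero =>
      unfold Iw
      rw [if_pos (by norm_num)]
      decide
  | succ k => exact (red_Iw k).symm

lemma red_Rw (k : ℕ) : Red (Rw k) := by
  induction k with
  | zero => exact red_Vw
  | succ k ih => exact red_prep ih (Rw_zero k)

lemma Rw_apply (k t : ℕ) (h : t < k) : Rw k t = Iw (k - 1 - t) := by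
  induction k generalizing t with
  | zero => omega
  | succ k ih =>
      cases t with
      | zero => rfl
      | succ t =>
          show Rw k t = _
          rw [ih t (by omega)]
          congr 1
          omega

/-! ### The vectors -/

/-- The smaller root `(3 - √5) / 2` of `r ^ 2 = 3 r - 1`. -/
noncomputable def rr : ℝ := (3 - Real.sqrt 5) / 2

lemma rr_sq : rr ^ 2 = 3 * rr - 1 := by
  unfold rr
  have h : Real.sqrt 5 ^ 2 = 5 := Real.sq_sqrt (by norm_num)
  nlinarith

lemma rr_pos : 0 < rr := by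
  unfold rr
  have : Real.sqrt 5 < 3 := by
    rw [Real.sqrt_lt' (by norm_num)]
    norm_num
  linarith

lemma rr_lt : rr < 1 / 2 := by
  unfold rr
  have : 2 < Real.sqrt 5 := by
    rw [Real.lt_sqrt (by norm_num)]
    norm_num
  linarith

/-- The vector with code `0 1 0 1 ...`. -/
noncomputable def xi : Fin 3 → ℝ := ![1, rr, 0]

/-- The vector with code `1 2 1 2 ...`. -/
noncomputable def eta : Fin 3 → ℝ := ![0, 1, rr]

lemma Pc_smul {i : Fin 3} {v : Fin 3 → ℝ} {c : ℝ} (hc : 0 ≤ c) (h : v ∈ Pc i) : c • v ∈ Pc i := by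
  refine ⟨fun l => mul_nonneg hc (h.1 l), fun l hl => ?_⟩
  have h4 := h.2 l hl
  show 2 * (c * v l) ≤ c * v i
  nlinarith

lemma cod_xi : Cod Vw xi := by
  have hr := rr_pos
  have hr2 := rr_lt
  have hsq := rr_sq
  have h1 : ∀ n, (n % 2 = 0 → pre Vw n xi = rr ^ n • xi) ∧
      (n % 2 = 1 → pre Vw n xi = rr ^ n • ![rr, 1, 0]) := by
    intro n
    induction n with
    | zero =>
        refine ⟨fun _ => ?_, fun h => by omega⟩
        rw [pow_zero, one_smul]
        rfl
    | succ n ih =>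
        refine ⟨fun h => ?_, fun h => ?_⟩
        · have h2 := ih.2 (by omega)
          rw [pre_succ, h2, map_smul]
          have h3 : Vw n = 1 := by
            unfold Vw
            rw [if_neg (by omega)]
          rw [h3, pow_succ, ← smul_smul]
          congr 1
          ext j
          rw [refl_formula]
          unfold sg xi
          fin_cases j <;> simp <;> nlinarith
        · have h2 := ih.1 (by omega)
          rw [pre_succ, h2, map_smul]
          have h3 : Vw n = 0 := by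
            unfold Vw
            rw [if_pos (by omega)]
          rw [h3, pow_succ, ← smul_smul]
          congr 1
          ext j
          rw [refl_formula]
          unfold sg xi
          fin_cases j <;> simp <;> nlinarith
  refine ⟨fun h => ?_, fun n => ?_⟩
  · have := congrFun h 0
    simp [xi] at this
  · rcases Nat.mod_two_eq_zero_or_one n with h | h
    · rw [(h1 n).1 h]
      have h3 : Vw n = 0 := by
        unfold Vw
        rw [if_pos h]
      rw [h3]
      apply Pc_smul (by positivity)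
      refine ⟨fun j => ?_, fun j hj => ?_⟩
      · unfold xi
        fin_cases j <;> simp <;> linarith
      · unfold xi
        fin_cases j <;> simp at hj ⊢ <;> linarith
    · rw [(h1 n).2 h]
      have h3 : Vw n = 1 := by
        unfold Vw
        rw [if_neg (by omega)]
      rw [h3]
      apply Pc_smul (by positivity)
      refine ⟨fun j => ?_, fun j hj => ?_⟩
      · fin_cases j <;> simp <;> linarith
      · fin_cases j <;> simp at hj ⊢ <;> linarith

lemma cod_eta : Cod Uw eta := by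
  have hr := rr_pos
  have hr2 := rr_lt
  have hsq := rr_sq
  have h1 : ∀ n, (n % 2 = 0 → pre Uw n eta = rr ^ n • eta) ∧
      (n % 2 = 1 → pre Uw n eta = rr ^ n • ![0, rr, 1]) := by
    intro n
    induction n with
    | zero =>
        refine ⟨fun _ => ?_, fun h => by omega⟩
        rw [pow_zero, one_smul]
        rfl
    | succ n ih =>
        refine ⟨fun h => ?_, fun h => ?_⟩
        · have h2 := ih.2 (by omega)
          rw [pre_succ, h2, map_smul]
          have h3 : Uw n = 2 := by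
            unfold Uw
            rw [if_neg (by omega)]
          rw [h3, pow_succ, ← smul_smul]
          congr 1
          ext j
          rw [refl_formula]
          unfold sg eta
          fin_cases j <;> simp <;> nlinarith
        · have h2 := ih.1 (by omega)
          rw [pre_succ, h2, map_smul]
          have h3 : Uw n = 1 := by
            unfold Uw
            rw [if_pos (by omega)]
          rw [h3, pow_succ, ← smul_smul]
          congr 1
          ext j
          rw [refl_formula]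
          unfold sg eta
          fin_cases j <;> simp <;> nlinarith
  refine ⟨fun h => ?_, fun n => ?_⟩
  · have := congrFun h 1
    simp [eta] at this
  · rcases Nat.mod_two_eq_zero_or_one n with h | h
    · rw [(h1 n).1 h]
      have h3 : Uw n = 1 := by
        unfold Uw
        rw [if_pos h]
      rw [h3]
      apply Pc_smul (by positivity)
      refine ⟨fun j => ?_, fun j hj => ?_⟩
      · unfold eta
        fin_cases j <;> simp <;> linarith
      · unfold eta
        fin_cases j <;> simp at hj ⊢ <;> linarith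
    · rw [(h1 n).2 h]
      have h3 : Uw n = 2 := by
        unfold Uw
        rw [if_neg (by omega)]
      rw [h3]
      apply Pc_smul (by positivity)
      refine ⟨fun j => ?_, fun j hj => ?_⟩
      · fin_cases j <;> simp <;> linarith
      · fin_cases j <;> simp at hj ⊢ <;> linarith

/-! ### Normal vectors of planes -/

/-- The Euclidean cross product. -/
def cr (u w : Fin 3 → ℝ) : Fin 3 → ℝ :=
  ![u 1 * w 2 - u 2 * w 1, u 2 * w 0 - u 0 * w 2, u 0 * w 1 - u 1 * w 0]

/-- The vector orthogonal to `u` and `w` for the form. -/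
noncomputable def nv (u w : Fin 3 → ℝ) : Fin 3 → ℝ := fun j => cr u w j - 3 / 4 * sg (cr u w)

lemma form_nv (u w y : Fin 3 → ℝ) :
    U3.form (nv u w) y = 5 / 2 * (cr u w 0 * y 0 + cr u w 1 * y 1 + cr u w 2 * y 2) := by
  rw [U3_form]
  unfold nv sg
  ring

lemma form_nv_left (u w : Fin 3 → ℝ) : U3.form (nv u w) u = 0 := by
  rw [form_nv]
  simp [cr]
  ring

lemma form_nv_right (u w : Fin 3 → ℝ) : U3.form (nv u w) w = 0 := by
  rw [form_nv]
  simp [cr]
  ring

lemma nv_ne_zero {u w : Fin 3 → ℝ} (h : cr u w ≠ 0) : nv u w ≠ 0 := by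
  intro h0
  apply h
  have h1 := form_nv u w (cr u w)
  rw [h0, U3_form] at h1
  simp [sg] at h1
  have h2 : cr u w 0 * cr u w 0 + cr u w 1 * cr u w 1 + cr u w 2 * cr u w 2 = 0 := h1
  ext j
  show cr u w j = 0
  fin_cases j
  · show cr u w 0 = 0
    nlinarith [mul_self_nonneg (cr u w 0), mul_self_nonneg (cr u w 1), mul_self_nonneg (cr u w 2)]
  · show cr u w 1 = 0
    nlinarith [mul_self_nonneg (cr u w 0), mul_self_nonneg (cr u w 1), mul_self_nonneg (cr u w 2)]
  · show cr u w 2 = 0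
    nlinarith [mul_self_nonneg (cr u w 0), mul_self_nonneg (cr u w 1), mul_self_nonneg (cr u w 2)]

/-- A vector orthogonal to two independent vectors is a multiple of the normal vector. -/
lemma par {u w z : Fin 3 → ℝ} (hc : cr u w ≠ 0) (h1 : U3.form z u = 0) (h2 : U3.form z w = 0) :
    ∃ a : ℝ, z = a • nv u w := by
  let y : Fin 3 → ℝ := fun j => z j - 3 / 5 * sg z
  have e1 : y 0 * u 0 + y 1 * u 1 + y 2 * u 2 = 0 := by
    rw [U3_form] at h1
    simp only [y, sg] at h1 ⊢
    linarith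
  have e2 : y 0 * w 0 + y 1 * w 1 + y 2 * w 2 = 0 := by
    rw [U3_form] at h2
    simp only [y, sg] at h2 ⊢
    linarith
  have hz : ∀ j, z j = y j - 3 / 4 * (y 0 + y 1 + y 2) := by
    intro j
    simp only [y, sg]
    ring
  have c0 : cr u w 0 = u 1 * w 2 - u 2 * w 1 := rfl
  have c1 : cr u w 1 = u 2 * w 0 - u 0 * w 2 := rfl
  have c2 : cr u w 2 = u 0 * w 1 - u 1 * w 0 := rfl
  have k01 : y 0 * cr u w 1 = y 1 * cr u w 0 := by
    rw [c0, c1]
    linear_combination u 2 * e2 - w 2 * e1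
  have k02 : y 0 * cr u w 2 = y 2 * cr u w 0 := by
    rw [c0, c2]
    linear_combination w 1 * e1 - u 1 * e2
  have k12 : y 1 * cr u w 2 = y 2 * cr u w 1 := by
    rw [c1, c2]
    linear_combination u 0 * e2 - w 0 * e1
  obtain ⟨j, hj⟩ : ∃ j, cr u w j ≠ 0 := by
    by_contra hcon
    push Not at hcon
    exact hc (funext hcon)
  have hy : ∀ i, y i = y j / cr u w j * cr u w i := by
    intro i
    rw [div_mul_eq_mul_div, eq_div_iff hj]
    fin_cases i <;> fin_cases j <;> simp at k01 k02 k12 ⊢ <;> linarith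
  refine ⟨y j / cr u w j, ?_⟩
  ext i
  show z i = y j / cr u w j * (cr u w i - 3 / 4 * (cr u w 0 + cr u w 1 + cr u w 2))
  rw [hz i]
  have y0 := hy 0
  have y1 := hy 1
  have y2 := hy 2
  have yi := hy i
  rw [y0, y1, y2, yi]
  ring

lemma cr_ne_zero {u w : Fin 3 → ℝ} (hu : u ≠ 0) (h : ∀ c : ℝ, w ≠ c • u) : cr u w ≠ 0 := by
  intro h0
  have c0 : u 1 * w 2 - u 2 * w 1 = 0 := congrFun h0 0
  have c1 : u 2 * w 0 - u 0 * w 2 = 0 := congrFun h0 1
  have c2 : u 0 * w 1 - u 1 * w 0 = 0 := congrFun h0 2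
  obtain ⟨j, hj⟩ : ∃ j, u j ≠ 0 := by
    by_contra hcon
    push Not at hcon
    exact hu (funext hcon)
  apply h (w j / u j)
  ext i
  show w i = w j / u j * u i
  rw [div_mul_eq_mul_div, eq_div_iff hj]
  fin_cases i <;> fin_cases j <;> simp <;> linarith

lemma nv_tendsto {u w : ℕ → Fin 3 → ℝ} {u' w' : Fin 3 → ℝ} (hu : Tendsto u atTop (𝓝 u'))
    (hw : Tendsto w atTop (𝓝 w')) : Tendsto (fun n => nv (u n) (w n)) atTop (𝓝 (nv u' w')) := by
  have hc : Continuous (fun q : (Fin 3 → ℝ) × (Fin 3 → ℝ) => nv q.1 q.2) := by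
    apply continuous_pi
    intro j
    unfold nv sg cr
    fin_cases j <;> simp <;> fun_prop
  have h1 : Tendsto (fun n => (u n, w n)) atTop (𝓝 (u', w')) := hu.prodMk_nhds hw
  have h2 := (hc.tendsto (u', w')).comp h1
  exact h2.congr (fun n => rfl)

/-! ### The base point and its translates -/

/-- The direction of a vector with positive sum of coordinates. -/
noncomputable def nrm (u : Fin 3 → ℝ) : Fin 3 → ℝ := (sg u)⁻¹ • u

lemma nrm_tendsto {u : ℕ → Fin 3 → ℝ} {v : Fin 3 → ℝ} {i : ℕ → (ℕ → Fin 3)} {j : ℕ → Fin 3}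
    (hi : ∀ n, Red (i n)) (hj : Red j) (hu : ∀ n, Cod (i n) (u n)) (hv : Cod j v)
    (h : ∀ n m, m ≤ n → i n m = j m) : Tendsto (fun n => nrm (u n)) atTop (𝓝 (nrm v)) := by
  rw [tendsto_pi_nhds]
  intro l
  have hb : Tendsto (fun n : ℕ => 5 * (1 / 4 : ℝ) ^ n) atTop (𝓝 0) := by
    have := (tendsto_pow_atTop_nhds_zero_of_lt_one (r := (1 / 4 : ℝ)) (by norm_num)
      (by norm_num)).const_mul 5
    rwa [mul_zero] at this
  have h1 : Tendsto (fun n => (nrm (u n) l - nrm v l) ^ 2) atTop (𝓝 0) := by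
    apply squeeze_zero (fun n => sq_nonneg _) _ hb
    intro n
    have h2 := cod_close (hi n) hj (hu n) hv (h n)
    have h3 : ∀ l, nrm (u n) l = u n l / sg (u n) := fun l => by
      show (sg (u n))⁻¹ * u n l = _
      ring
    have h4 : ∀ l, nrm v l = v l / sg v := fun l => by
      show (sg v)⁻¹ * v l = _
      ring
    rw [h3, h4]
    have p0 := sq_nonneg (u n 0 / sg (u n) - v 0 / sg v)
    have p1 := sq_nonneg (u n 1 / sg (u n) - v 1 / sg v)
    have p2 := sq_nonneg (u n 2 / sg (u n) - v 2 / sg v)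
    fin_cases l
    · show (u n 0 / sg (u n) - v 0 / sg v) ^ 2 ≤ _
      linarith
    · show (u n 1 / sg (u n) - v 1 / sg v) ^ 2 ≤ _
      linarith
    · show (u n 2 / sg (u n) - v 2 / sg v) ^ 2 ≤ _
      linarith
  have h2 := h1.sqrt
  rw [Real.sqrt_zero] at h2
  rw [← tendsto_sub_nhds_zero_iff, tendsto_zero_iff_abs_tendsto_zero]
  refine h2.congr (fun n => ?_)
  rw [Real.sqrt_sq_eq_abs]
  rfl

lemma cod_not_par {i j : ℕ → Fin 3} {u w : Fin 3 → ℝ} (hu : Cod i u) (hw : Cod j w)
    {n : ℕ} (hij : i n ≠ j n) (c : ℝ) : w ≠ c • u := by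
  rintro rfl
  exact hij (cod_unique (cod_smul hu hw) hw n)

/-- The vector coded by the block word. -/
noncomputable def zeta : Fin 3 → ℝ := (cod_exists red_Iw).choose

lemma cod_zeta : Cod Iw zeta := (cod_exists red_Iw).choose_spec

/-- The base point. -/
noncomputable def xb : Fin 3 → ℝ := nv zeta xi

lemma xb_ne : xb ≠ 0 := by
  apply nv_ne_zero
  apply cr_ne_zero cod_zeta.1
  apply cod_not_par cod_zeta cod_xi (n := 0)
  rw [Iw_even (by norm_num)]
  decide

/-- The length of the word read. -/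
def kn (m : ℕ) : ℕ := 2 * (m + 1) ^ 2

/-- The translates of the base point. -/
noncomputable def xt (m : ℕ) : Fin 3 → ℝ := pre Iw (kn m) xb

lemma xt_ne (m : ℕ) : xt m ≠ 0 := fun h => xb_ne ((pre Iw (kn m)).injective (h.trans (map_zero _).symm))

/-- The forward vectors. -/
noncomputable def ut (m : ℕ) : Fin 3 → ℝ := pre Iw (kn m) zeta

/-- The backward vectors. -/
noncomputable def vt (m : ℕ) : Fin 3 → ℝ := pre Iw (kn m) xi

lemma cod_ut (m : ℕ) : Cod (fun n => Iw (n + kn m)) (ut m) := cod_shift cod_zeta _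

lemma red_ut (m : ℕ) : Red (fun n => Iw (n + kn m)) := by
  intro n
  have := red_Iw (n + kn m)
  show Iw (n + kn m) ≠ Iw (n + 1 + kn m)
  have h : n + 1 + kn m = n + kn m + 1 := by ring
  rw [h]
  exact this

lemma cod_vt_aux (k : ℕ) : Cod (Rw k) (pre Iw k xi) := by
  induction k with
  | zero => exact cod_xi
  | succ k ih => exact cod_prep ih (Rw_zero k)

lemma cod_vt (m : ℕ) : Cod (Rw (kn m)) (vt m) := cod_vt_aux _

lemma ut_tendsto : Tendsto (fun m => nrm (ut m)) atTop (𝓝 (nrm eta)) := by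
  apply nrm_tendsto red_ut red_Uw cod_ut cod_eta
  intro n m hm
  show Iw (m + 2 * (n + 1) ^ 2) = Uw m
  exact Iw_forward (n + 1) m (by omega)

lemma vt_tendsto : Tendsto (fun m => nrm (vt m)) atTop (𝓝 (nrm xi)) := by
  apply nrm_tendsto (fun m => red_Rw (kn m)) red_Vw cod_vt cod_xi
  intro n m hm
  have h1 : m < kn n := by
    unfold kn
    nlinarith
  rw [Rw_apply _ _ h1]
  exact Iw_backward (n + 1) m (by omega)

/-- The limit vector. -/
noncomputable def P0 : Fin 3 → ℝ := nv (nrm eta) (nrm xi)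

lemma sg_eta : 0 < sg eta := cod_sg_pos cod_eta
lemma sg_xi : 0 < sg xi := cod_sg_pos cod_xi

lemma nv_smul (a b : ℝ) (u w : Fin 3 → ℝ) : nv (a • u) (b • w) = (a * b) • nv u w := by
  ext j
  unfold nv sg cr
  fin_cases j <;> simp <;> ring

lemma P0_eq : P0 = ((sg eta)⁻¹ * (sg xi)⁻¹) • nv eta xi := nv_smul _ _ _ _

lemma eta_xi : cr eta xi ≠ 0 := by
  apply cr_ne_zero cod_eta.1
  exact cod_not_par cod_eta cod_xi (n := 0) (by decide)

lemma P0_ne : P0 ≠ 0 := by
  rw [P0_eq]
  exact smul_ne_zero (mul_ne_zero (inv_ne_zero sg_eta.ne') (inv_ne_zero sg_xi.ne'))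
    (nv_ne_zero eta_xi)

lemma xt_form (m : ℕ) : U3.form (xt m) (ut m) = 0 ∧ U3.form (xt m) (vt m) = 0 := by
  unfold xt ut vt
  rw [U3.form_W (pre_mem _ _), U3.form_W (pre_mem _ _)]
  exact ⟨form_nv_left _ _, form_nv_right _ _⟩

lemma ut_vt (m : ℕ) : cr (ut m) (vt m) ≠ 0 := by
  apply cr_ne_zero (cod_ut m).1
  apply cod_not_par (cod_ut m) (cod_vt m) (n := 0)
  have h1 := Rw_zero (kn m)
  show Iw (0 + kn m) ≠ Rw (kn m) 0
  rwa [Nat.zero_add]

lemma xt_par (m : ℕ) : ∃ a : ℝ, a ≠ 0 ∧ a • xt m = nv (nrm (ut m)) (nrm (vt m)) := by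
  obtain ⟨a, ha⟩ := par (ut_vt m) (xt_form m).1 (xt_form m).2
  have ha0 : a ≠ 0 := by
    rintro rfl
    rw [zero_smul] at ha
    exact xt_ne m ha
  have h1 := (cod_sg_pos (cod_ut m)).ne'
  have h2 := (cod_sg_pos (cod_vt m)).ne'
  refine ⟨(sg (ut m))⁻¹ * (sg (vt m))⁻¹ * a⁻¹, ?_, ?_⟩
  · exact mul_ne_zero (mul_ne_zero (inv_ne_zero h1) (inv_ne_zero h2)) (inv_ne_zero ha0)
  · unfold nrm
    rw [nv_smul, ha, smul_smul, mul_assoc, inv_mul_cancel₀ ha0, mul_one]

lemma light_in_plane {x : Fin 3 → ℝ} (h : U3.form P0 x = 0) (hx : U3.form x x = 0) (hx0 : x ≠ 0) :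
    ∃ c : ℝ, c ≠ 0 ∧ (x = c • eta ∨ x = c • xi) := by
  have hr := rr_sq
  rw [P0_eq, U3.form_comm, U3.form_smul_right] at h
  have hne := mul_ne_zero (inv_ne_zero sg_eta.ne') (inv_ne_zero sg_xi.ne')
  have h1 : U3.form (nv eta xi) x = 0 := by
    rw [U3.form_comm]
    exact (mul_eq_zero.1 h).resolve_left hne
  rw [form_nv] at h1
  have h2 : x 2 = rr * x 1 - rr ^ 2 * x 0 := by
    simp [cr, eta, xi] at h1
    nlinarith
  have h3 : x = x 0 • xi + (x 1 - rr * x 0) • eta := by
    ext j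
    fin_cases j
    · simp [xi, eta]
    · simp [xi, eta]
      ring
    · simp [xi, eta]
      rw [h2]
      ring
  rw [U3_form] at hx
  unfold sg at hx
  rw [h2] at hx
  have h4 : x 0 * (x 1 - rr * x 0) * rr = 0 := by
    linear_combination (-1 / 10) * hx + (1 / 10) * (5 / 2 * (x 0 ^ 2 + (x 1 - rr * x 0) ^ 2) -
      3 / 2 * (x 0 + (x 1 - rr * x 0)) ^ 2) * hr
  have hrr := rr_pos.ne'
  rcases mul_eq_zero.1 ((mul_eq_zero.1 h4).resolve_right hrr) with h5 | h5
  · rw [h5, zero_smul, zero_add] at h3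
    refine ⟨x 1 - rr * 0, ?_, Or.inl h3⟩
    intro h6
    rw [h6, zero_smul] at h3
    exact hx0 h3
  · rw [h5, zero_smul, add_zero] at h3
    refine ⟨x 0, ?_, Or.inr h3⟩
    intro h6
    rw [h6, zero_smul] at h3
    exact hx0 h3

/-! ### The limit point is a limit direction -/

lemma no_zero_in_Uw (n : ℕ) : Uw n ≠ 0 := by
  unfold Uw
  split_ifs <;> decide

lemma no_two_in_Vw (n : ℕ) : Vw n ≠ 2 := by
  unfold Vw
  split_ifs <;> decide

lemma Iw_hits_zero (k : ℕ) : ∃ n, Iw (n + k) = 0 := by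
  -- the position `2 (k+2)^2 - 1`
  refine ⟨2 * (k + 2) ^ 2 - 1 - k, ?_⟩
  have h1 : k ≤ 2 * (k + 2) ^ 2 - 1 := by
    have : k + 1 ≤ 2 * (k + 2) ^ 2 := by nlinarith
    omega
  have h2 : 2 * (k + 2) ^ 2 - 1 - k + k = 2 * (k + 2) ^ 2 - 1 - 0 := by omega
  rw [h2, Iw_backward (k + 2) 0 (by omega)]
  rfl

lemma Iw_hits_two (k : ℕ) : ∃ n, Iw (n + k) = 2 := by
  refine ⟨1 + 2 * (k + 1) ^ 2 - k, ?_⟩
  have h1 : k ≤ 1 + 2 * (k + 1) ^ 2 := by nlinarith
  have h2 : 1 + 2 * (k + 1) ^ 2 - k + k = 1 + 2 * (k + 1) ^ 2 := by omega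
  rw [h2, Iw_forward (k + 1) 1 (by omega)]
  rfl

lemma xt_dir_ne (m : ℕ) :
    Projectivization.mk ℝ (xt m) (xt_ne m) ≠ Projectivization.mk ℝ P0 P0_ne := by
  intro h
  rw [Projectivization.mk_eq_mk_iff'] at h
  obtain ⟨a, ha⟩ := h
  have ha0 : a ≠ 0 := by
    rintro rfl
    rw [zero_smul] at ha
    exact xt_ne m ha.symm
  have h1 : U3.form P0 (ut m) = 0 := by
    have h2 := (xt_form m).1
    rw [← ha, U3.form_comm, U3.form_smul_right, U3.form_comm] at h2
    exact (mul_eq_zero.1 h2).resolve_left ha0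
  have h2 := cod_light (red_ut m) (cod_ut m)
  obtain ⟨c, hc, h3 | h3⟩ := light_in_plane h1 h2 (cod_ut m).1
  · have h4 := cod_ut m
    rw [h3] at h4
    have h5 := cod_smul cod_eta h4
    obtain ⟨n, hn⟩ := Iw_hits_zero (kn m)
    have h6 := cod_unique h5 h4 n
    rw [hn] at h6
    exact no_zero_in_Uw n h6
  · have h4 := cod_ut m
    rw [h3] at h4
    have h5 := cod_smul cod_xi h4
    obtain ⟨n, hn⟩ := Iw_hits_two (kn m)
    have h6 := cod_unique h5 h4 n
    rw [hn] at h6
    exact no_two_in_Vw n h6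

lemma fiber_dir {u : ℕ → Fin 3 → ℝ} {a : ℕ → ℝ} {v : Fin 3 → ℝ} (hv : v ≠ 0)
    (hu : ∀ n, u n ≠ 0) (h : Tendsto (fun n => a n • u n) atTop (𝓝 v))
    (hne : ∀ n, Projectivization.mk ℝ (u n) (hu n) ≠ Projectivization.mk ℝ v hv)
    (q : ℙ ℝ (Fin 3 → ℝ)) : {n | Projectivization.mk ℝ (u n) (hu n) = q}.Finite := by
  by_contra hcon
  have hinf : {n | Projectivization.mk ℝ (u n) (hu n) = q}.Infinite := hcon
  have hfreq : ∃ᶠ n in atTop, Projectivization.mk ℝ (u n) (hu n) = q :=
    Nat.frequently_atTop_iff_infinite.2 hinf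
  have hcl : v ∈ closure ((Submodule.span ℝ {q.rep} : Submodule ℝ (Fin 3 → ℝ)) :
      Set (Fin 3 → ℝ)) := by
    apply mem_closure_of_frequently_of_tendsto _ h
    refine hfreq.mono (fun n hn => ?_)
    apply Submodule.smul_mem
    rw [← Projectivization.mk_rep q, Projectivization.mk_eq_mk_iff'] at hn
    obtain ⟨c, hc⟩ := hn
    rw [← hc]
    exact Submodule.smul_mem _ _ (Submodule.mem_span_singleton_self _)
  rw [(Submodule.closed_of_finiteDimensional (Submodule.span ℝ {q.rep})).closure_eq] at hcl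
  obtain ⟨c, hc⟩ := Submodule.mem_span_singleton.1 hcl
  obtain ⟨n, hn⟩ := hfreq.exists
  apply hne n
  rw [hn]
  rw [← Projectivization.mk_rep q, Projectivization.mk_eq_mk_iff']
  have hc0 : c ≠ 0 := by
    rintro rfl
    rw [zero_smul] at hc
    exact hv hc.symm
  refine ⟨c⁻¹, ?_⟩
  rw [← hc, smul_smul, inv_mul_cancel₀ hc0, one_smul]

/-- Extraction of an injective subsequence. -/
lemma extract {X : Type} {f : ℕ → X} (h : ∀ x, {n | f n = x}.Finite) :
    ∃ φ : ℕ → ℕ, StrictMono φ ∧ Function.Injective (f ∘ φ) := by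
  classical
  obtain ⟨φ, _, hφ⟩ := exists_seq_of_forall_finset_exists (fun _ : ℕ => True)
    (fun a b => a < b ∧ f a ≠ f b) (by
      intro s _
      have h1 : (⋃ a ∈ s, {n | f n = f a}).Finite := s.finite_toSet.biUnion (fun a _ => h _)
      obtain ⟨N, hN⟩ := h1.bddAbove
      obtain ⟨M, hM⟩ := s.finite_toSet.bddAbove
      refine ⟨max N M + 1, trivial, fun a ha => ⟨?_, ?_⟩⟩
      · have := hM ha
        omega
      · intro heq
        have h2 : max N M + 1 ∈ ⋃ a ∈ s, {n | f n = f a} :=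
          Set.mem_biUnion ha heq.symm
        have := hN h2
        omega)
  refine ⟨φ, strictMono_nat_of_lt_succ (fun n => (hφ n (n + 1) (by omega)).1), ?_⟩
  intro m n hmn
  rcases lt_trichotomy m n with h1 | h1 | h1
  · exact absurd hmn (hφ m n h1).2
  · exact h1
  · exact absurd hmn.symm (hφ n m h1).2

lemma P0_limit : Projectivization.mk ℝ P0 P0_ne ∈ limitDirections U3 := by
  choose a ha0 ha using xt_par
  have hlim : Tendsto (fun m => a m • xt m) atTop (𝓝 P0) := by
    refine (nv_tendsto ut_tendsto vt_tendsto).congr (fun m => ?_)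
    rw [ha]
  have hfib := fiber_dir P0_ne xt_ne hlim xt_dir_ne
  obtain ⟨φ, hφ, hinj⟩ := extract hfib
  refine Set.mem_iUnion.2 ⟨Projectivization.mk ℝ xb xb_ne,
    fun n => Projectivization.mk ℝ (xt (φ n)) (xt_ne (φ n)), ?_, hinj, ?_⟩
  · intro n
    rw [U3.orbit_mk]
    exact ⟨pre Iw (kn (φ n)), pre_mem _ _, xt_ne _, rfl⟩
  · exact (tendsto_mk_smul P0_ne xt_ne hlim).comp hφ.tendsto_atTop

/-! ### It is neither a limit root nor unimodular -/

lemma form_P0 : U3.form P0 P0 ≠ 0 := by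
  have hr := rr_sq
  have hr1 := rr_pos
  have hr2 := rr_lt
  rw [P0_eq, U3.form_smul_right, U3.form_comm, U3.form_smul_right]
  have hne := mul_ne_zero (inv_ne_zero sg_eta.ne') (inv_ne_zero sg_xi.ne')
  refine mul_ne_zero hne (mul_ne_zero hne ?_)
  have h1 : U3.form (nv eta xi) (nv eta xi) = 5 / 2 * (1 - rr ^ 2) ^ 2 := by
    rw [form_nv]
    unfold nv sg
    simp [cr, eta, xi]
    linear_combination (-(3 / 4) : ℝ) * (rr ^ 2 + rr + 1) * hr
  rw [h1]
  have h2 : 0 < 1 - rr ^ 2 := by nlinarith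
  positivity

lemma P0_not_root : Projectivization.mk ℝ P0 P0_ne ∉ limitRoots U3 := by
  intro h
  obtain ⟨s, f, hf, hinj, hlim⟩ := Set.mem_iUnion.1 h
  apply form_P0
  have hacc : Projectivization.mk ℝ P0 P0_ne ∈ U3.limRoots := by
    show AccPt _ (𝓟 U3.rootDir)
    rw [accPt_iff_nhds]
    intro U hU
    have h1 : ∀ᶠ n in atTop, f n ∈ U := hlim.eventually hU
    obtain ⟨N, hN⟩ := eventually_atTop.1 h1
    by_cases h2 : f N = Projectivization.mk ℝ P0 P0_ne
    · refine ⟨f (N + 1), ⟨hN _ (by omega), s, hf _⟩, ?_⟩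
      intro h3
      have := hinj (h3.trans h2.symm)
      omega
    · exact ⟨f N, ⟨hN _ le_rfl, s, hf _⟩, h2⟩
  obtain ⟨_, _, _, _, _, _, _, h1⟩ := limRoot_seq P0_ne hacc
  exact h1

lemma irr_zero {A C : ℤ} (h : (A : ℝ) + rr * C = 0) : A = 0 ∧ C = 0 := by
  have hC : C = 0 := by
    by_contra hC
    have hC' : (C : ℝ) ≠ 0 := by exact_mod_cast hC
    have h1 : Real.sqrt 5 = ((3 * C + 2 * A : ℤ) : ℝ) / ((C : ℤ) : ℝ) := by
      rw [eq_div_iff hC']
      unfold rr at h
      push_cast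
      linarith
    have h2 : Irrational (Real.sqrt 5) := Nat.Prime.irrational_sqrt (by norm_num : Nat.Prime 5)
    apply h2
    refine ⟨((3 * C + 2 * A : ℤ) : ℚ) / ((C : ℤ) : ℚ), ?_⟩
    rw [h1]
    push_cast
    rfl
  refine ⟨?_, hC⟩
  rw [hC] at h
  simp at h
  exact h

/-- The conjugate of `xi`. -/
noncomputable def xi' : Fin 3 → ℝ := ![1, 3 - rr, 0]

/-- An element of the group with eigenvector `xi` has the conjugate vector as eigenvector. -/
lemma conj_eigen {w : (Fin 3 → ℝ) ≃ₗ[ℝ] (Fin 3 → ℝ)} (hw : w ∈ U3.W) {a : ℝ}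
    (h : w xi = a • xi) : ∃ b : ℝ, w xi' = b • xi' := by
  obtain ⟨A, hA, _⟩ := W_int hw 0
  obtain ⟨C, hC, _⟩ := W_int hw 1
  have hr := rr_sq
  have e1 : xi = al 0 + rr • al 1 := by
    ext j
    unfold xi al
    fin_cases j <;> simp
  have e2 : xi' = al 0 + (3 - rr) • al 1 := by
    ext j
    unfold xi' al
    fin_cases j <;> simp
  rw [e1, map_add, map_smul, hA, hC, ← e1] at h
  have h0 := congrFun h 0
  have h1 := congrFun h 1
  have h2 := congrFun h 2
  simp [toR, xi] at h0 h1 h2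
  obtain ⟨A2, C2⟩ := irr_zero h2
  have h3 : ((A 1 + C 0 : ℤ) : ℝ) + rr * ((C 1 - A 0 - 3 * C 0 : ℤ) : ℝ) = 0 := by
    push_cast
    rw [← h0] at h1
    linear_combination h1 + C 0 * hr
  obtain ⟨h4, h5⟩ := irr_zero h3
  refine ⟨A 0 + (3 - rr) * C 0, ?_⟩
  rw [e2, map_add, map_smul, hA, hC, ← e2]
  have h4' : (A 1 : ℝ) = -C 0 := by
    have : A 1 = -C 0 := by omega
    exact_mod_cast this
  have h5' : (C 1 : ℝ) = A 0 + 3 * C 0 := by
    have : C 1 = A 0 + 3 * C 0 := by omega
    exact_mod_cast this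
  ext j
  fin_cases j
  · simp [toR, xi']
  · simp [toR, xi']
    rw [h4', h5']
    linear_combination -(C 0 : ℝ) * hr
  · simp [toR, xi', A2, C2]

lemma form_xi' : U3.form xi' xi ≠ 0 ∧ U3.form xi' eta ≠ 0 := by
  have hr := rr_sq
  have h0 := rr_pos
  constructor
  · have : U3.form xi' xi = -(5 / 2) := by
      rw [U3_form]
      simp [sg, xi, xi']
      linear_combination (-1) * hr
    rw [this]
    norm_num
  · have : U3.form xi' eta = -(5 / 2) * rr := by
      rw [U3_form]
      simp [sg, eta, xi']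
      linear_combination (3 / 2) * hr
    rw [this]
    exact mul_ne_zero (by norm_num) h0.ne'

lemma not_both {w : (Fin 3 → ℝ) ≃ₗ[ℝ] (Fin 3 → ℝ)} (hw : w ∈ U3.W) {a b : ℝ} (hab : a ≠ b)
    (h1 : w xi = a • xi) (h2 : w eta = b • eta) : False := by
  obtain ⟨c, hc⟩ := conj_eigen hw h1
  have k1 := U3.form_W hw xi' xi
  have k2 := U3.form_W hw xi' eta
  rw [hc, h1, U3.form_smul_right, U3.form_comm, U3.form_smul_right, U3.form_comm] at k1
  rw [hc, h2, U3.form_smul_right, U3.form_comm, U3.form_smul_right, U3.form_comm] at k2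
  have e1 : a * c = 1 := by
    have : (a * c - 1) * U3.form xi' xi = 0 := by linarith
    have := (mul_eq_zero.1 this).resolve_right form_xi'.1
    linarith
  have e2 : b * c = 1 := by
    have : (b * c - 1) * U3.form xi' eta = 0 := by linarith
    have := (mul_eq_zero.1 this).resolve_right form_xi'.2
    linarith
  have hc0 : c ≠ 0 := by
    rintro rfl
    rw [mul_zero] at e1
    exact zero_ne_one e1
  exact hab (mul_right_cancel₀ hc0 (e1.trans e2.symm))

lemma eig_light {w : (Fin 3 → ℝ) ≃ₗ[ℝ] (Fin 3 → ℝ)} (hw : w ∈ U3.W) {x : Fin 3 → ℝ} {a : ℝ}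
    (h : w x = a • x) (ha : a ^ 2 ≠ 1) : U3.form x x = 0 := by
  have h1 := U3.form_W hw x x
  rw [h, form_smul_smul] at h1
  have h2 : (a ^ 2 - 1) * U3.form x x = 0 := by linarith
  exact (mul_eq_zero.1 h2).resolve_left (sub_ne_zero.2 ha)

lemma eig_scale {w : (Fin 3 → ℝ) ≃ₗ[ℝ] (Fin 3 → ℝ)} {x z : Fin 3 → ℝ} {a c : ℝ}
    (h : w x = a • x) (hc : c ≠ 0) (hx : x = c • z) : w z = a • z := by
  have h1 : c • w z = c • (a • z) := by
    rw [← map_smul, ← hx, h, hx, smul_comm]
  exact smul_right_injective _ hc h1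

lemma P0_not_hyp : Projectivization.mk ℝ P0 P0_ne ∉ unimodHyp U3 := by
  rintro ⟨w, hw, x, y, a, b, hx, hy, hwx, hwy, ha, hb, hpx, hpy⟩
  obtain ⟨c, hc⟩ := Projectivization.exists_smul_eq_mk_rep ℝ P0 P0_ne
  have hc' : (c : ℝ) • P0 = (Projectivization.mk ℝ P0 P0_ne).rep := hc
  have hc0 : (c : ℝ) ≠ 0 := c.ne_zero
  have fx : U3.form P0 x = 0 := by
    rw [← hc', U3.form_comm, U3.form_smul_right, U3.form_comm] at hpx
    exact (mul_eq_zero.1 hpx).resolve_left hc0
  have fy : U3.form P0 y = 0 := by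
    rw [← hc', U3.form_comm, U3.form_smul_right, U3.form_comm] at hpy
    exact (mul_eq_zero.1 hpy).resolve_left hc0
  have ha2 : 1 < a ^ 2 := by
    rw [← sq_abs]
    nlinarith
  have hb2 : b ^ 2 < 1 := by
    rw [← sq_abs]
    nlinarith [abs_nonneg b]
  have lx := eig_light hw hwx (by linarith [ha2] : a ^ 2 ≠ 1)
  have ly := eig_light hw hwy (by linarith [hb2] : b ^ 2 ≠ 1)
  have hab : a ≠ b := by
    rintro rfl
    linarith
  obtain ⟨d, hd, hd'⟩ := light_in_plane fx lx hx
  obtain ⟨e, he, he'⟩ := light_in_plane fy ly hy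
  rcases hd' with hd' | hd' <;> rcases he' with he' | he'
  · have h1 := eig_scale hwx hd hd'
    have h2 := eig_scale hwy he he'
    rw [h1] at h2
    exact hab (smul_left_injective ℝ cod_eta.1 h2)
  · exact not_both hw hab.symm (eig_scale hwy he he') (eig_scale hwx hd hd')
  · exact not_both hw hab (eig_scale hwx hd hd') (eig_scale hwy he he')
  · have h1 := eig_scale hwx hd hd'
    have h2 := eig_scale hwy he he'
    rw [h1] at h2
    exact hab (smul_left_injective ℝ cod_xi.1 h2)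

/-- There is a Lorentzian geometric Coxeter system with a limit direction that is neither a limit
root nor in the union of the unimodular subspaces of the hyperbolic elements. -/
theorem result : ∃ D : GeomCoxeter (Fin 3), D.Lorentzian ∧
    ∃ p ∈ limitDirections D, p ∉ unimodHyp D ∧ p ∉ limitRoots D :=
  ⟨U3, U3_lorentzian, _, P0_limit, P0_not_hyp, P0_not_root⟩

end Pool.Agent.Results.MP_de6c1e_al.StrictInclusion
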